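import Mathlib

/-!
# Hyperbolic 3-space (hyperboloid model): half-spaces, dihedral angles, polyhedra, volume

`Mink` is Minkowski space with coordinates `x 0` (time), `x 1`, `x 2`, `x 3`.
-/

open MeasureTheory Set

noncomputable section

namespace Pool.Agent.TH44.HypPoly

/-- Minkowski space `ℝ^{3,1}`; the coordinate `x 0` is the time coordinate. -/
abbrev Mink : Type := Fin 4 → ℝ

/-- The Lorentz form. -/
def lor (x y : Mink) : ℝ := x 1 * y 1 + x 2 * y 2 + x 3 * y 3 - x 0 * y 0

/-- Hyperbolic 3-space, the upper sheet of the hyperboloid. -/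
def H3 : Set Mink := {x | lor x x = -1 ∧ 0 < x 0}

/-- The hyperbolic distance of two points of `H3`. -/
def hdist (x y : Mink) : ℝ := Real.arcosh (-lor x y)

/-- The hyperbolic volume of `S ⊆ H3`: as Lebesgue measure on the future cone is
`r ^ 3 dr d vol(x)` in the coordinates `X = r x`, `x ∈ H3`, it is four times the Lebesgue measure
of the truncated cone over `S`. -/
def hvol (S : Set Mink) : ENNReal :=
  4 * volume {X : Mink | ∃ r ∈ Set.Ioo (0 : ℝ) 1, ∃ x ∈ S, X = r • x}

/-- The plane of `H3` with (spacelike) normal vector `v`. -/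
def plane (v : Mink) : Set Mink := {x | x ∈ H3 ∧ lor x v = 0}

/-- The closed half-space of `H3` with outward (spacelike) normal vector `v`. -/
def halfspace (v : Mink) : Set Mink := {x | x ∈ H3 ∧ lor x v ≤ 0}

open Classical in
/-- The measure of the dihedral angle `halfspace v ∩ halfspace w`: if the bounding planes meet,
the interior angle, that is `π` minus the angle between the outward normals; otherwise minus
the hyperbolic distance of the planes (which is `0` for asymptotic planes). -/
def dihedral (v w : Mink) : ℝ :=
  if (plane v ∩ plane w).Nonempty then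
    Real.pi - Real.arccos (lor v w / (√(lor v v) * √(lor w w)))
  else -sInf {d : ℝ | ∃ x ∈ plane v, ∃ y ∈ plane w, d = hdist x y}

/-- The intersection of the half-spaces with outward normals `v i`. -/
def poly {N : ℕ} (v : Fin N → Mink) : Set Mink := {x | x ∈ H3 ∧ ∀ i, x ∈ halfspace (v i)}

/-- `poly v` is a compact convex polyhedron with nonempty interior and each of the `N` half-spaces
contributes a genuine facet. -/
def IsPolyhedron {N : ℕ} (v : Fin N → Mink) : Prop :=
  (∀ i, 0 < lor (v i) (v i)) ∧ IsCompact (poly v) ∧ (∃ x ∈ H3, ∀ i, lor x (v i) < 0) ∧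
    ∀ i, ∃ x ∈ plane (v i), ∀ j, j ≠ i → lor x (v j) < 0

end Pool.Agent.TH44.HypPoly
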