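import Pool.Agent.TH44.HypPoly.Defs

/-!
# The counterexample

In the projective (Klein) model the two polyhedra are

* `P = [-1/2, 1/2] × [-1/2, 1/2] × [-s, s]`, a box, and
* `Q = K × [-s, s]`, where `K` is the thin kite
  `-u₁ ± u₂ / 16 ≤ 1/2`, `|u₂| ≤ (1 - t - u₁) / 8` with its apex `(1 - t, 0)` close to the
  boundary of the model.

The opposite sides `u₁ = ∓ 1/2` of `P` correspond to the two (almost collinear) short sides of `K`
and the sides `u₂ = ± 1/2` of `P` to the two long sides of `K`.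
-/

set_option linter.unusedSimpArgs false
set_option linter.unusedVariables false
set_option linter.unreachableTactic false
set_option linter.unusedTactic false

open MeasureTheory Set

noncomputable section

namespace Pool.Agent.TH44.HypPoly

/-! ### Basic facts -/

lemma one_le_of_mem {x : Mink} (hx : x ∈ H3) : 1 ≤ x 0 := by
  obtain ⟨h1, h2⟩ := hx
  simp only [lor] at h1
  nlinarith [sq_nonneg (x 1), sq_nonneg (x 2), sq_nonneg (x 3)]

lemma one_le_neg_lor {x y : Mink} (hx : x ∈ H3) (hy : y ∈ H3) : 1 ≤ -lor x y := by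
  have hx0 := one_le_of_mem hx
  have hy0 := one_le_of_mem hy
  obtain ⟨h1, -⟩ := hx
  obtain ⟨h2, -⟩ := hy
  simp only [lor] at h1 h2 ⊢
  by_contra hcon
  push Not at hcon
  have h3 : x 0 * y 0 < 1 + (x 1 * y 1 + x 2 * y 2 + x 3 * y 3) := by linarith
  have hpos : 0 < x 0 * y 0 := by positivity
  have h4 : (x 0 * y 0) ^ 2 < (1 + (x 1 * y 1 + x 2 * y 2 + x 3 * y 3)) ^ 2 := by
    apply pow_lt_pow_left₀ h3 hpos.le; norm_num
  have h5 : (x 0 * y 0) ^ 2 = (1 + (x 1 * x 1 + x 2 * x 2 + x 3 * x 3)) *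
      (1 + (y 1 * y 1 + y 2 * y 2 + y 3 * y 3)) := by
    have e1 : x 0 * x 0 = 1 + (x 1 * x 1 + x 2 * x 2 + x 3 * x 3) := by linarith
    have e2 : y 0 * y 0 = 1 + (y 1 * y 1 + y 2 * y 2 + y 3 * y 3) := by linarith
    rw [← e1, ← e2]; ring
  nlinarith [sq_nonneg (x 1 - y 1), sq_nonneg (x 2 - y 2), sq_nonneg (x 3 - y 3),
    sq_nonneg (x 1 * y 2 - x 2 * y 1), sq_nonneg (x 1 * y 3 - x 3 * y 1),
    sq_nonneg (x 2 * y 3 - x 3 * y 2)]

lemma hdist_nonneg {x y : Mink} (hx : x ∈ H3) (hy : y ∈ H3) : 0 ≤ hdist x y :=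
  Real.arcosh_nonneg (one_le_neg_lor hx hy)

lemma lor_smul_left (s : ℝ) (x y : Mink) : lor (s • x) y = s * lor x y := by
  simp only [lor, Pi.smul_apply, smul_eq_mul]; ring

lemma lor_smul_right (s : ℝ) (x y : Mink) : lor x (s • y) = s * lor x y := by
  simp only [lor, Pi.smul_apply, smul_eq_mul]; ring

/-- Normalisation of a future timelike vector. -/
lemma exists_normalize {y : Mink} (h0 : 0 < y 0) (h1 : lor y y < 0) :
    ∃ s : ℝ, 0 < s ∧ s ^ 2 * (-lor y y) = 1 ∧ s • y ∈ H3 := by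
  have hpos : 0 < -lor y y := by linarith
  refine ⟨(√(-lor y y))⁻¹, by positivity, ?_, ?_, ?_⟩
  · rw [inv_pow, Real.sq_sqrt hpos.le]
    exact inv_mul_cancel₀ hpos.ne'
  · have h2 : (√(-lor y y))⁻¹ * ((√(-lor y y))⁻¹ * (-lor y y)) = 1 := by
      have h3 := Real.mul_self_sqrt hpos.le
      have h4 : √(-lor y y) ≠ 0 := by positivity
      field_simp
      nlinarith
    rw [lor_smul_left, lor_smul_right]
    linarith
  · simp only [Pi.smul_apply, smul_eq_mul]; positivity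

/-- Comparison of two dihedral angles: if the planes with normals `v'`, `w'` meet, and the normalised
Lorentz products satisfy the obvious inequality, then the measure of the second angle is at least
that of the first. -/
lemma dihedral_le {v w v' w' : Mink} (hne : (plane v' ∩ plane w').Nonempty)
    (h : lor v w / (√(lor v v) * √(lor w w)) ≤ lor v' w' / (√(lor v' v') * √(lor w' w'))) :
    dihedral v w ≤ dihedral v' w' := by
  have hq : dihedral v' w' = Real.pi - Real.arccos (lor v' w' / (√(lor v' v') * √(lor w' w'))) := by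
    rw [dihedral, if_pos hne]
  by_cases hp : (plane v ∩ plane w).Nonempty
  · rw [hq, dihedral, if_pos hp]
    have := Real.antitone_arccos h
    linarith
  · rw [hq, dihedral, if_neg hp]
    have h1 : 0 ≤ sInf {d : ℝ | ∃ x ∈ plane v, ∃ y ∈ plane w, d = hdist x y} := by
      apply Real.sInf_nonneg
      rintro d ⟨x, hx, y, hy, rfl⟩
      exact hdist_nonneg hx.1 hy.1
    have h2 := Real.arccos_le_pi (lor v' w' / (√(lor v' v') * √(lor w' w')))
    linarith

/-- The criterion used for all pairs. -/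
lemma dihedral_le_of {v w v' w' y : Mink} (hy0 : 0 < y 0) (hy : lor y y < 0)
    (hyv : lor y v' = 0) (hyw : lor y w' = 0)
    (hv : 0 < lor v v) (hw : 0 < lor w w) (hvv : lor v v ≤ lor v' v') (hww : lor w w ≤ lor w' w')
    (h0 : lor v w ≤ 0) (h1 : lor v w ≤ lor v' w') :
    dihedral v w ≤ dihedral v' w' := by
  apply dihedral_le
  · obtain ⟨s, -, -, hs⟩ := exists_normalize hy0 hy
    exact ⟨s • y, ⟨hs, by rw [lor_smul_left, hyv, mul_zero]⟩,
      ⟨hs, by rw [lor_smul_left, hyw, mul_zero]⟩⟩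
  · have e1 : 0 < √(lor v v) * √(lor w w) := by positivity
    have e2 : √(lor v v) * √(lor w w) ≤ √(lor v' v') * √(lor w' w') := by gcongr
    have := div_le_div₀ (a := -lor v' w') (c := -lor v w) (by linarith) (by linarith) e1 e2
    rw [neg_div, neg_div] at this
    linarith

/-- A point of the future cone satisfying the inequalities of `v`, with `-1 < lor X X < 0`, lies in
the truncated cone over `poly v`. -/
lemma mem_cone {N : ℕ} {v : Fin N → Mink} {X : Mink} (h0 : 0 < X 0) (h1 : lor X X < 0)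
    (h2 : -1 < lor X X) (hv : ∀ i, lor X (v i) ≤ 0) :
    ∃ r ∈ Set.Ioo (0 : ℝ) 1, ∃ x ∈ poly v, X = r • x := by
  obtain ⟨s, hs, hs2, hsX⟩ := exists_normalize h0 h1
  have hs1 : 1 < s := by
    by_contra hcon
    push Not at hcon
    have : s ^ 2 ≤ 1 := pow_le_one₀ hs.le hcon
    nlinarith
  refine ⟨s⁻¹, ⟨by positivity, inv_lt_one_of_one_lt₀ hs1⟩, s • X, ⟨hsX, fun i => ⟨hsX, ?_⟩⟩, ?_⟩
  · rw [lor_smul_left]
    exact mul_nonpos_of_nonneg_of_nonpos hs.le (hv i)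
  · rw [smul_smul, inv_mul_cancel₀ hs.ne', one_smul]

/-- Interior points are obtained by normalisation. -/
lemma exists_interior {N : ℕ} {v : Fin N → Mink} {y : Mink} (h0 : 0 < y 0) (h1 : lor y y < 0)
    (hv : ∀ i, lor y (v i) < 0) : ∃ x ∈ H3, ∀ i, lor x (v i) < 0 := by
  obtain ⟨s, hs, -, hsy⟩ := exists_normalize h0 h1
  refine ⟨s • y, hsy, fun i => ?_⟩
  rw [lor_smul_left]
  exact mul_neg_of_pos_of_neg hs (hv i)

lemma exists_facet {N : ℕ} {v : Fin N → Mink} {y : Mink} (i : Fin N) (h0 : 0 < y 0)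
    (h1 : lor y y < 0) (hi : lor y (v i) = 0) (hv : ∀ j, j ≠ i → lor y (v j) < 0) :
    ∃ x ∈ plane (v i), ∀ j, j ≠ i → lor x (v j) < 0 := by
  obtain ⟨s, hs, -, hsy⟩ := exists_normalize h0 h1
  refine ⟨s • y, ⟨hsy, by rw [lor_smul_left, hi, mul_zero]⟩, fun j hj => ?_⟩
  rw [lor_smul_left]
  exact mul_neg_of_pos_of_neg hs (hv j hj)

lemma continuous_lor : Continuous fun p : Mink × Mink => lor p.1 p.2 := by
  unfold lor; fun_prop

lemma isClosed_poly {N : ℕ} (v : Fin N → Mink) : IsClosed (poly v) := by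
  have h : poly v = {x : Mink | lor x x = -1} ∩ {x : Mink | 1 ≤ x 0} ∩
      ⋂ i, {x : Mink | lor x (v i) ≤ 0} := by
    ext x
    constructor
    · rintro ⟨hx, h⟩
      refine ⟨⟨hx.1, one_le_of_mem hx⟩, ?_⟩
      simp only [mem_iInter, mem_ofPred_eq]
      exact fun i => (h i).2
    · rintro ⟨⟨h1, h2⟩, h3⟩
      simp only [mem_iInter, mem_ofPred_eq] at h1 h2 h3
      have hx : x ∈ H3 := ⟨h1, by linarith⟩
      exact ⟨hx, fun i => ⟨hx, h3 i⟩⟩
  rw [h]
  refine IsClosed.inter (IsClosed.inter ?_ ?_) ?_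
  · exact isClosed_eq (continuous_lor.comp (continuous_id.prodMk continuous_id)) continuous_const
  · exact isClosed_le continuous_const (continuous_apply 0)
  · exact isClosed_iInter fun i =>
      isClosed_le (continuous_lor.comp (continuous_id.prodMk continuous_const)) continuous_const

lemma isCompact_poly {N : ℕ} {v : Fin N → Mink} (R : ℝ) (h : ∀ x ∈ poly v, x 0 ≤ R) :
    IsCompact (poly v) := by
  apply Metric.isCompact_of_isClosed_isBounded (isClosed_poly v)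
  apply (Metric.isBounded_closedBall (x := (0 : Mink)) (r := R)).subset
  intro x hx
  have h0 := h x hx
  have h1 := one_le_of_mem hx.1
  have h2 := hx.1.1
  simp only [lor] at h2
  rw [mem_closedBall_zero_iff, pi_norm_le_iff_of_nonneg (by linarith)]
  intro i
  rw [Real.norm_eq_abs]
  apply abs_le_of_sq_le_sq _ (by linarith)
  have h3 : x 0 ^ 2 ≤ R ^ 2 := by
    apply pow_le_pow_left₀ _ h0; linarith
  fin_cases i
  · exact h3
  · show x 1 ^ 2 ≤ R ^ 2
    nlinarith [sq_nonneg (x 2), sq_nonneg (x 3)]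
  · show x 2 ^ 2 ≤ R ^ 2
    nlinarith [sq_nonneg (x 1), sq_nonneg (x 3)]
  · show x 3 ^ 2 ≤ R ^ 2
    nlinarith [sq_nonneg (x 1), sq_nonneg (x 2)]

/-! ### The two polyhedra -/

/-- Outward normals of the box `P`. -/
def nP (σ : ℝ) : Fin 6 → Mink :=
  ![![1 / 2, -1, 0, 0], ![1 / 2, 0, 1, 0], ![1 / 2, 1, 0, 0], ![1 / 2, 0, -1, 0],
    ![σ, 0, 0, 1], ![σ, 0, 0, -1]]

/-- Outward normals of the prism `Q` over the kite. -/
def nQ (τ σ : ℝ) : Fin 6 → Mink :=
  ![![1 / 2, -1, -1 / 16, 0], ![(1 - τ) / 8, 1 / 8, 1, 0], ![1 / 2, -1, 1 / 16, 0],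
    ![(1 - τ) / 8, 1 / 8, -1, 0], ![σ, 0, 0, 1], ![σ, 0, 0, -1]]

lemma forall6 {p : Fin 6 → Prop} (h0 : p 0) (h1 : p 1) (h2 : p 2) (h3 : p 3) (h4 : p 4)
    (h5 : p 5) : ∀ i, p i := by
  intro i; fin_cases i <;> assumption

lemma y0 (a b c d : ℝ) : (![a, b, c, d] : Mink) 0 = a := rfl
lemma y1 (a b c d : ℝ) : (![a, b, c, d] : Mink) 1 = b := rfl
lemma y2 (a b c d : ℝ) : (![a, b, c, d] : Mink) 2 = c := rfl
lemma y3 (a b c d : ℝ) : (![a, b, c, d] : Mink) 3 = d := rfl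

lemma lor_vec (a b c d a' b' c' d' : ℝ) :
    lor ![a, b, c, d] ![a', b', c', d'] = b * b' + c * c' + d * d' - a * a' := rfl

lemma lor_P0 (σ : ℝ) (x : Mink) : lor x (nP σ 0) = -x 1 - x 0 / 2 := by
  simp [lor, nP]; ring
lemma lor_P1 (σ : ℝ) (x : Mink) : lor x (nP σ 1) = x 2 - x 0 / 2 := by
  simp [lor, nP]; ring
lemma lor_P2 (σ : ℝ) (x : Mink) : lor x (nP σ 2) = x 1 - x 0 / 2 := by
  simp [lor, nP]; ring
lemma lor_P3 (σ : ℝ) (x : Mink) : lor x (nP σ 3) = -x 2 - x 0 / 2 := by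
  simp [lor, nP]; ring
lemma lor_P4 (σ : ℝ) (x : Mink) : lor x (nP σ 4) = x 3 - σ * x 0 := by
  simp [lor, nP]; ring
lemma lor_P5 (σ : ℝ) (x : Mink) : lor x (nP σ 5) = -x 3 - σ * x 0 := by
  simp [lor, nP]; ring
lemma lor_Q0 (τ σ : ℝ) (x : Mink) : lor x (nQ τ σ 0) = -x 1 - x 2 / 16 - x 0 / 2 := by
  simp [lor, nQ]; ring
lemma lor_Q1 (τ σ : ℝ) (x : Mink) :
    lor x (nQ τ σ 1) = x 1 / 8 + x 2 - (1 - τ) / 8 * x 0 := by
  simp [lor, nQ]; ring
lemma lor_Q2 (τ σ : ℝ) (x : Mink) : lor x (nQ τ σ 2) = -x 1 + x 2 / 16 - x 0 / 2 := by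
  simp [lor, nQ]; ring
lemma lor_Q3 (τ σ : ℝ) (x : Mink) :
    lor x (nQ τ σ 3) = x 1 / 8 - x 2 - (1 - τ) / 8 * x 0 := by
  simp [lor, nQ]; ring
lemma lor_Q4 (τ σ : ℝ) (x : Mink) : lor x (nQ τ σ 4) = x 3 - σ * x 0 := by
  simp [lor, nQ]; ring
lemma lor_Q5 (τ σ : ℝ) (x : Mink) : lor x (nQ τ σ 5) = -x 3 - σ * x 0 := by
  simp [lor, nQ]; ring

lemma time_P_le {σ : ℝ} (hσ0 : 0 < σ) (hσ : σ ≤ 1 / 8) {x : Mink} (hx : x ∈ poly (nP σ)) :
    x 0 ≤ 2 := by
  have h0 := (hx.2 0).2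
  have h1 := (hx.2 1).2
  have h2 := (hx.2 2).2
  have h3 := (hx.2 3).2
  have h4 := (hx.2 4).2
  have h5 := (hx.2 5).2
  rw [lor_P0] at h0
  rw [lor_P1] at h1
  rw [lor_P2] at h2
  rw [lor_P3] at h3
  rw [lor_P4] at h4
  rw [lor_P5] at h5
  have hx0 := one_le_of_mem hx.1
  have hl := hx.1.1
  simp only [lor] at hl
  have a1 : x 1 ^ 2 ≤ (x 0 / 2) ^ 2 := by
    apply sq_le_sq'  <;> linarith
  have a2 : x 2 ^ 2 ≤ (x 0 / 2) ^ 2 := by
    apply sq_le_sq'  <;> linarith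
  have a3 : x 3 ^ 2 ≤ (σ * x 0) ^ 2 := by
    apply sq_le_sq'  <;> linarith
  have a4 : (σ * x 0) ^ 2 ≤ (x 0 / 8) ^ 2 := by
    apply pow_le_pow_left₀ (by positivity); nlinarith
  nlinarith

lemma lor_comm (x y : Mink) : lor x y = lor y x := by
  simp only [lor]; ring

lemma isPolyhedron_P {σ : ℝ} (hσ0 : 0 < σ) (hσ : σ ≤ 1 / 8) : IsPolyhedron (nP σ) := by
  refine ⟨?_, isCompact_poly 2 fun x hx => time_P_le hσ0 hσ hx, ?_, ?_⟩
  · apply forall6
    · show 0 < lor ![1 / 2, -1, 0, 0] ![1 / 2, -1, 0, 0]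
      rw [lor_vec]; norm_num
    · show 0 < lor ![1 / 2, 0, 1, 0] ![1 / 2, 0, 1, 0]
      rw [lor_vec]; norm_num
    · show 0 < lor ![1 / 2, 1, 0, 0] ![1 / 2, 1, 0, 0]
      rw [lor_vec]; norm_num
    · show 0 < lor ![1 / 2, 0, -1, 0] ![1 / 2, 0, -1, 0]
      rw [lor_vec]; norm_num
    · show 0 < lor ![σ, 0, 0, 1] ![σ, 0, 0, 1]
      rw [lor_vec]; nlinarith
    · show 0 < lor ![σ, 0, 0, -1] ![σ, 0, 0, -1]
      rw [lor_vec]; nlinarith
  · apply exists_interior (y := ![1, 0, 0, 0])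
    · norm_num
    · rw [lor_vec]; norm_num
    · apply forall6
      · rw [lor_P0]; simp only [y0, y1, y2, y3]; norm_num
      · rw [lor_P1]; simp only [y0, y1, y2, y3]; norm_num
      · rw [lor_P2]; simp only [y0, y1, y2, y3]; norm_num
      · rw [lor_P3]; simp only [y0, y1, y2, y3]; norm_num
      · rw [lor_P4]; simp only [y0, y1, y2, y3]; linarith
      · rw [lor_P5]; simp only [y0, y1, y2, y3]; linarith
  · apply forall6
    · apply exists_facet (y := ![1, -1 / 2, 0, 0])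
      · norm_num
      · rw [lor_vec]; norm_num
      · rw [lor_P0]; simp only [y0, y1, y2, y3]; norm_num
      · apply forall6
        · intro h; exact absurd rfl h
        · intro _; rw [lor_P1]; simp only [y0, y1, y2, y3]; norm_num
        · intro _; rw [lor_P2]; simp only [y0, y1, y2, y3]; norm_num
        · intro _; rw [lor_P3]; simp only [y0, y1, y2, y3]; norm_num
        · intro _; rw [lor_P4]; simp only [y0, y1, y2, y3]; linarith
        · intro _; rw [lor_P5]; simp only [y0, y1, y2, y3]; linarith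
    · apply exists_facet (y := ![1, 0, 1 / 2, 0])
      · norm_num
      · rw [lor_vec]; norm_num
      · rw [lor_P1]; simp only [y0, y1, y2, y3]; norm_num
      · apply forall6
        · intro _; rw [lor_P0]; simp only [y0, y1, y2, y3]; norm_num
        · intro h; exact absurd rfl h
        · intro _; rw [lor_P2]; simp only [y0, y1, y2, y3]; norm_num
        · intro _; rw [lor_P3]; simp only [y0, y1, y2, y3]; norm_num
        · intro _; rw [lor_P4]; simp only [y0, y1, y2, y3]; linarith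
        · intro _; rw [lor_P5]; simp only [y0, y1, y2, y3]; linarith
    · apply exists_facet (y := ![1, 1 / 2, 0, 0])
      · norm_num
      · rw [lor_vec]; norm_num
      · rw [lor_P2]; simp only [y0, y1, y2, y3]; norm_num
      · apply forall6
        · intro _; rw [lor_P0]; simp only [y0, y1, y2, y3]; norm_num
        · intro _; rw [lor_P1]; simp only [y0, y1, y2, y3]; norm_num
        · intro h; exact absurd rfl h
        · intro _; rw [lor_P3]; simp only [y0, y1, y2, y3]; norm_num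
        · intro _; rw [lor_P4]; simp only [y0, y1, y2, y3]; linarith
        · intro _; rw [lor_P5]; simp only [y0, y1, y2, y3]; linarith
    · apply exists_facet (y := ![1, 0, -1 / 2, 0])
      · norm_num
      · rw [lor_vec]; norm_num
      · rw [lor_P3]; simp only [y0, y1, y2, y3]; norm_num
      · apply forall6
        · intro _; rw [lor_P0]; simp only [y0, y1, y2, y3]; norm_num
        · intro _; rw [lor_P1]; simp only [y0, y1, y2, y3]; norm_num
        · intro _; rw [lor_P2]; simp only [y0, y1, y2, y3]; norm_num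
        · intro h; exact absurd rfl h
        · intro _; rw [lor_P4]; simp only [y0, y1, y2, y3]; linarith
        · intro _; rw [lor_P5]; simp only [y0, y1, y2, y3]; linarith
    · apply exists_facet (y := ![1, 0, 0, σ])
      · norm_num
      · rw [lor_vec]; nlinarith
      · rw [lor_P4]; simp only [y0, y1, y2, y3]; norm_num
      · apply forall6
        · intro _; rw [lor_P0]; simp only [y0, y1, y2, y3]; norm_num
        · intro _; rw [lor_P1]; simp only [y0, y1, y2, y3]; norm_num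
        · intro _; rw [lor_P2]; simp only [y0, y1, y2, y3]; norm_num
        · intro _; rw [lor_P3]; simp only [y0, y1, y2, y3]; norm_num
        · intro h; exact absurd rfl h
        · intro _; rw [lor_P5]; simp only [y0, y1, y2, y3]; linarith
    · apply exists_facet (y := ![1, 0, 0, -σ])
      · norm_num
      · rw [lor_vec]; nlinarith
      · rw [lor_P5]; simp only [y0, y1, y2, y3]; norm_num
      · apply forall6
        · intro _; rw [lor_P0]; simp only [y0, y1, y2, y3]; norm_num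
        · intro _; rw [lor_P1]; simp only [y0, y1, y2, y3]; norm_num
        · intro _; rw [lor_P2]; simp only [y0, y1, y2, y3]; norm_num
        · intro _; rw [lor_P3]; simp only [y0, y1, y2, y3]; norm_num
        · intro _; rw [lor_P4]; simp only [y0, y1, y2, y3]; linarith
        · intro h; exact absurd rfl h

lemma aux_time {τ b u x2 x3 : ℝ} (hτ0 : 0 < τ) (hτ : τ ≤ 1 / 32) (hb : 1 ≤ b)
    (hl : b ^ 2 = 1 + u ^ 2 + x2 ^ 2 + x3 ^ 2) (a0 : 0 ≤ (1 - τ) * b - u) (a1 : 0 ≤ u + b / 2)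
    (a2 : x2 ^ 2 ≤ (((1 - τ) * b - u) / 8) ^ 2) (a3 : x3 ^ 2 ≤ τ / 2 * b ^ 2) : b * τ ≤ 1 := by
  have a5 : 0 ≤ u + (1 - τ) * b - ((1 - τ) * b - u) / 64 := by nlinarith
  have a6 : u ^ 2 + (((1 - τ) * b - u) / 8) ^ 2 ≤ ((1 - τ) * b) ^ 2 := by
    have h := mul_nonneg a0 a5
    have e : ((1 - τ) * b - u) * (u + (1 - τ) * b - ((1 - τ) * b - u) / 64) =
      ((1 - τ) * b) ^ 2 - (u ^ 2 + (((1 - τ) * b - u) / 8) ^ 2) := by ring
    linarith
  have a7 : b ^ 2 * (2 * τ - τ ^ 2 - τ / 2) ≤ 1 := by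
    have e : ((1 - τ) * b) ^ 2 = b ^ 2 - b ^ 2 * (2 * τ - τ ^ 2) := by ring
    have e2 : b ^ 2 * (2 * τ - τ ^ 2 - τ / 2) = b ^ 2 * (2 * τ - τ ^ 2) - τ / 2 * b ^ 2 := by ring
    linarith
  have a8 : τ ≤ 2 * τ - τ ^ 2 - τ / 2 := by nlinarith
  have hb2 : b ≤ b ^ 2 := by nlinarith
  have a9 : b * τ ≤ b ^ 2 * τ := mul_le_mul_of_nonneg_right hb2 hτ0.le
  have a10 : b ^ 2 * τ ≤ b ^ 2 * (2 * τ - τ ^ 2 - τ / 2) :=
    mul_le_mul_of_nonneg_left a8 (sq_nonneg b)
  linarith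

lemma time_Q_le {τ σ : ℝ} (hτ0 : 0 < τ) (hτ : τ ≤ 1 / 32) (hσ0 : 0 < σ) (hσ : σ ^ 2 ≤ τ / 2)
    {x : Mink} (hx : x ∈ poly (nQ τ σ)) : x 0 ≤ 1 / τ := by
  have h0 := (hx.2 0).2
  have h1 := (hx.2 1).2
  have h2 := (hx.2 2).2
  have h3 := (hx.2 3).2
  have h4 := (hx.2 4).2
  have h5 := (hx.2 5).2
  rw [lor_Q0] at h0
  rw [lor_Q1] at h1
  rw [lor_Q2] at h2
  rw [lor_Q3] at h3
  rw [lor_Q4] at h4
  rw [lor_Q5] at h5
  have hx0 := one_le_of_mem hx.1
  have hl := hx.1.1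
  simp only [lor] at hl
  rw [le_div_iff₀ hτ0]
  have a3 : x 3 ^ 2 ≤ (σ * x 0) ^ 2 := by
    apply sq_le_sq' <;> linarith
  have a4 : (σ * x 0) ^ 2 ≤ τ / 2 * x 0 ^ 2 := by
    rw [mul_pow]
    exact mul_le_mul_of_nonneg_right hσ (sq_nonneg _)
  apply aux_time (u := x 1) (x2 := x 2) (x3 := x 3) hτ0 hτ hx0
  · nlinarith only [hl]
  · linarith
  · linarith
  · apply sq_le_sq' <;> linarith
  · exact a3.trans a4

lemma isPolyhedron_Q {τ σ : ℝ} (hτ0 : 0 < τ) (hτ : τ ≤ 1 / 32) (hσ0 : 0 < σ)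
    (hσ : σ ^ 2 ≤ τ / 2) : IsPolyhedron (nQ τ σ) := by
  refine ⟨?_, isCompact_poly (1 / τ) fun x hx => time_Q_le hτ0 hτ hσ0 hσ hx, ?_, ?_⟩
  · apply forall6
    · show 0 < lor ![1 / 2, -1, -1 / 16, 0] ![1 / 2, -1, -1 / 16, 0]
      rw [lor_vec]; norm_num
    · show 0 < lor ![(1 - τ) / 8, 1 / 8, 1, 0] ![(1 - τ) / 8, 1 / 8, 1, 0]
      rw [lor_vec]; nlinarith
    · show 0 < lor ![1 / 2, -1, 1 / 16, 0] ![1 / 2, -1, 1 / 16, 0]
      rw [lor_vec]; norm_num
    · show 0 < lor ![(1 - τ) / 8, 1 / 8, -1, 0] ![(1 - τ) / 8, 1 / 8, -1, 0]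
      rw [lor_vec]; nlinarith
    · show 0 < lor ![σ, 0, 0, 1] ![σ, 0, 0, 1]
      rw [lor_vec]; nlinarith
    · show 0 < lor ![σ, 0, 0, -1] ![σ, 0, 0, -1]
      rw [lor_vec]; nlinarith
  · apply exists_interior (y := ![1, 0, 0, 0])
    · norm_num
    · rw [lor_vec]; norm_num
    · apply forall6
      · rw [lor_Q0]; simp only [y0, y1, y2, y3]; linarith
      · rw [lor_Q1]; simp only [y0, y1, y2, y3]; linarith
      · rw [lor_Q2]; simp only [y0, y1, y2, y3]; linarith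
      · rw [lor_Q3]; simp only [y0, y1, y2, y3]; linarith
      · rw [lor_Q4]; simp only [y0, y1, y2, y3]; linarith
      · rw [lor_Q5]; simp only [y0, y1, y2, y3]; linarith
  · apply forall6
    · apply exists_facet (y := ![1, 1 / 256 - 1 / 2, -1 / 16, 0])
      · norm_num
      · rw [lor_vec]; norm_num
      · rw [lor_Q0]; simp only [y0, y1, y2, y3]; norm_num
      · apply forall6
        · intro h; exact absurd rfl h
        · intro _; rw [lor_Q1]; simp only [y0, y1, y2, y3]; linarith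
        · intro _; rw [lor_Q2]; simp only [y0, y1, y2, y3]; linarith
        · intro _; rw [lor_Q3]; simp only [y0, y1, y2, y3]; linarith
        · intro _; rw [lor_Q4]; simp only [y0, y1, y2, y3]; linarith
        · intro _; rw [lor_Q5]; simp only [y0, y1, y2, y3]; linarith
    · apply exists_facet (y := ![1, 0, (1 - τ) / 8, 0])
      · norm_num
      · rw [lor_vec]; nlinarith
      · rw [lor_Q1]; simp only [y0, y1, y2, y3]; ring
      · apply forall6
        · intro _; rw [lor_Q0]; simp only [y0, y1, y2, y3]; linarith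
        · intro h; exact absurd rfl h
        · intro _; rw [lor_Q2]; simp only [y0, y1, y2, y3]; linarith
        · intro _; rw [lor_Q3]; simp only [y0, y1, y2, y3]; linarith
        · intro _; rw [lor_Q4]; simp only [y0, y1, y2, y3]; linarith
        · intro _; rw [lor_Q5]; simp only [y0, y1, y2, y3]; linarith
    · apply exists_facet (y := ![1, 1 / 256 - 1 / 2, 1 / 16, 0])
      · norm_num
      · rw [lor_vec]; norm_num
      · rw [lor_Q2]; simp only [y0, y1, y2, y3]; norm_num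
      · apply forall6
        · intro _; rw [lor_Q0]; simp only [y0, y1, y2, y3]; linarith
        · intro _; rw [lor_Q1]; simp only [y0, y1, y2, y3]; linarith
        · intro h; exact absurd rfl h
        · intro _; rw [lor_Q3]; simp only [y0, y1, y2, y3]; linarith
        · intro _; rw [lor_Q4]; simp only [y0, y1, y2, y3]; linarith
        · intro _; rw [lor_Q5]; simp only [y0, y1, y2, y3]; linarith
    · apply exists_facet (y := ![1, 0, -((1 - τ) / 8), 0])
      · norm_num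
      · rw [lor_vec]; nlinarith
      · rw [lor_Q3]; simp only [y0, y1, y2, y3]; ring
      · apply forall6
        · intro _; rw [lor_Q0]; simp only [y0, y1, y2, y3]; linarith
        · intro _; rw [lor_Q1]; simp only [y0, y1, y2, y3]; linarith
        · intro _; rw [lor_Q2]; simp only [y0, y1, y2, y3]; linarith
        · intro h; exact absurd rfl h
        · intro _; rw [lor_Q4]; simp only [y0, y1, y2, y3]; linarith
        · intro _; rw [lor_Q5]; simp only [y0, y1, y2, y3]; linarith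
    · apply exists_facet (y := ![1, 0, 0, σ])
      · norm_num
      · rw [lor_vec]; nlinarith
      · rw [lor_Q4]; simp only [y0, y1, y2, y3]; ring
      · apply forall6
        · intro _; rw [lor_Q0]; simp only [y0, y1, y2, y3]; linarith
        · intro _; rw [lor_Q1]; simp only [y0, y1, y2, y3]; linarith
        · intro _; rw [lor_Q2]; simp only [y0, y1, y2, y3]; linarith
        · intro _; rw [lor_Q3]; simp only [y0, y1, y2, y3]; linarith
        · intro h; exact absurd rfl h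
        · intro _; rw [lor_Q5]; simp only [y0, y1, y2, y3]; linarith
    · apply exists_facet (y := ![1, 0, 0, -σ])
      · norm_num
      · rw [lor_vec]; nlinarith
      · rw [lor_Q5]; simp only [y0, y1, y2, y3]; ring
      · apply forall6
        · intro _; rw [lor_Q0]; simp only [y0, y1, y2, y3]; linarith
        · intro _; rw [lor_Q1]; simp only [y0, y1, y2, y3]; linarith
        · intro _; rw [lor_Q2]; simp only [y0, y1, y2, y3]; linarith
        · intro _; rw [lor_Q3]; simp only [y0, y1, y2, y3]; linarith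
        · intro _; rw [lor_Q4]; simp only [y0, y1, y2, y3]; linarith
        · intro h; exact absurd rfl h

/-! ### Comparison of the dihedral angles -/

lemma dihedral_symm (v w : Mink) : dihedral v w = dihedral w v := by
  have e1 : plane v ∩ plane w = plane w ∩ plane v := inter_comm _ _
  have e2 : {d : ℝ | ∃ x ∈ plane v, ∃ y ∈ plane w, d = hdist x y} =
      {d : ℝ | ∃ x ∈ plane w, ∃ y ∈ plane v, d = hdist x y} := by
    ext d
    constructor
    · rintro ⟨x, hx, y, hy, rfl⟩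
      exact ⟨y, hy, x, hx, by rw [hdist, hdist, lor_comm]⟩
    · rintro ⟨x, hx, y, hy, rfl⟩
      exact ⟨y, hy, x, hx, by rw [hdist, hdist, lor_comm]⟩
  rw [dihedral, dihedral, e1, e2, lor_comm v w, mul_comm (√(lor v v))]

lemma dih_01 {τ σ : ℝ} (hτ0 : 0 < τ) (hτ : τ ≤ 1 / 32) (hσ0 : 0 < σ)
    (hσ : σ ^ 2 ≤ τ / 2) :
    dihedral (nP σ 0) (nP σ 1) ≤ dihedral (nQ τ σ 0) (nQ τ σ 1) := by
  show dihedral ![1 / 2, -1, 0, 0] ![1 / 2, 0, 1, 0] ≤
    dihedral ![1 / 2, -1, -1 / 16, 0] ![(1 - τ) / 8, 1 / 8, 1, 0]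
  apply dihedral_le_of (y := ![127, -65 + τ, 24 - 16 * τ, 0]) <;> (try rw [lor_vec]) <;> (try rw [lor_vec]) <;>
    first | (norm_num; done) | (ring; done) | nlinarith

lemma dih_02 {τ σ : ℝ} (hτ0 : 0 < τ) (hτ : τ ≤ 1 / 32) (hσ0 : 0 < σ)
    (hσ : σ ^ 2 ≤ τ / 2) :
    dihedral (nP σ 0) (nP σ 2) ≤ dihedral (nQ τ σ 0) (nQ τ σ 2) := by
  show dihedral ![1 / 2, -1, 0, 0] ![1 / 2, 1, 0, 0] ≤
    dihedral ![1 / 2, -1, -1 / 16, 0] ![1 / 2, -1, 1 / 16, 0]
  apply dihedral_le_of (y := ![1, -1 / 2, 0, 0]) <;> (try rw [lor_vec]) <;> (try rw [lor_vec]) <;>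
    first | (norm_num; done) | (ring; done) | nlinarith

lemma dih_03 {τ σ : ℝ} (hτ0 : 0 < τ) (hτ : τ ≤ 1 / 32) (hσ0 : 0 < σ)
    (hσ : σ ^ 2 ≤ τ / 2) :
    dihedral (nP σ 0) (nP σ 3) ≤ dihedral (nQ τ σ 0) (nQ τ σ 3) := by
  show dihedral ![1 / 2, -1, 0, 0] ![1 / 2, 0, -1, 0] ≤
    dihedral ![1 / 2, -1, -1 / 16, 0] ![(1 - τ) / 8, 1 / 8, -1, 0]
  apply dihedral_le_of (y := ![129, -63 - τ, -24 + 16 * τ, 0]) <;> (try rw [lor_vec]) <;> (try rw [lor_vec]) <;>
    first | (norm_num; done) | (ring; done) | nlinarith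

lemma dih_04 {τ σ : ℝ} (hτ0 : 0 < τ) (hτ : τ ≤ 1 / 32) (hσ0 : 0 < σ)
    (hσ : σ ^ 2 ≤ τ / 2) :
    dihedral (nP σ 0) (nP σ 4) ≤ dihedral (nQ τ σ 0) (nQ τ σ 4) := by
  show dihedral ![1 / 2, -1, 0, 0] ![σ, 0, 0, 1] ≤
    dihedral ![1 / 2, -1, -1 / 16, 0] ![σ, 0, 0, 1]
  apply dihedral_le_of (y := ![1, -1 / 2, 0, σ]) <;> (try rw [lor_vec]) <;> (try rw [lor_vec]) <;>
    first | (norm_num; done) | (ring; done) | nlinarith

lemma dih_05 {τ σ : ℝ} (hτ0 : 0 < τ) (hτ : τ ≤ 1 / 32) (hσ0 : 0 < σ)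
    (hσ : σ ^ 2 ≤ τ / 2) :
    dihedral (nP σ 0) (nP σ 5) ≤ dihedral (nQ τ σ 0) (nQ τ σ 5) := by
  show dihedral ![1 / 2, -1, 0, 0] ![σ, 0, 0, -1] ≤
    dihedral ![1 / 2, -1, -1 / 16, 0] ![σ, 0, 0, -1]
  apply dihedral_le_of (y := ![1, -1 / 2, 0, -σ]) <;> (try rw [lor_vec]) <;> (try rw [lor_vec]) <;>
    first | (norm_num; done) | (ring; done) | nlinarith

lemma dih_12 {τ σ : ℝ} (hτ0 : 0 < τ) (hτ : τ ≤ 1 / 32) (hσ0 : 0 < σ)
    (hσ : σ ^ 2 ≤ τ / 2) :
    dihedral (nP σ 1) (nP σ 2) ≤ dihedral (nQ τ σ 1) (nQ τ σ 2) := by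
  show dihedral ![1 / 2, 0, 1, 0] ![1 / 2, 1, 0, 0] ≤
    dihedral ![(1 - τ) / 8, 1 / 8, 1, 0] ![1 / 2, -1, 1 / 16, 0]
  apply dihedral_le_of (y := ![129, -63 - τ, 24 - 16 * τ, 0]) <;> (try rw [lor_vec]) <;> (try rw [lor_vec]) <;>
    first | (norm_num; done) | (ring; done) | nlinarith

lemma dih_13 {τ σ : ℝ} (hτ0 : 0 < τ) (hτ : τ ≤ 1 / 32) (hσ0 : 0 < σ)
    (hσ : σ ^ 2 ≤ τ / 2) :
    dihedral (nP σ 1) (nP σ 3) ≤ dihedral (nQ τ σ 1) (nQ τ σ 3) := by
  show dihedral ![1 / 2, 0, 1, 0] ![1 / 2, 0, -1, 0] ≤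
    dihedral ![(1 - τ) / 8, 1 / 8, 1, 0] ![(1 - τ) / 8, 1 / 8, -1, 0]
  apply dihedral_le_of (y := ![1, 1 - τ, 0, 0]) <;> (try rw [lor_vec]) <;> (try rw [lor_vec]) <;>
    first | (norm_num; done) | (ring; done) | nlinarith

lemma dih_14 {τ σ : ℝ} (hτ0 : 0 < τ) (hτ : τ ≤ 1 / 32) (hσ0 : 0 < σ)
    (hσ : σ ^ 2 ≤ τ / 2) :
    dihedral (nP σ 1) (nP σ 4) ≤ dihedral (nQ τ σ 1) (nQ τ σ 4) := by
  show dihedral ![1 / 2, 0, 1, 0] ![σ, 0, 0, 1] ≤
    dihedral ![(1 - τ) / 8, 1 / 8, 1, 0] ![σ, 0, 0, 1]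
  apply dihedral_le_of (y := ![1, 1 - τ, 0, σ]) <;> (try rw [lor_vec]) <;> (try rw [lor_vec]) <;>
    first | (norm_num; done) | (ring; done) | nlinarith

lemma dih_15 {τ σ : ℝ} (hτ0 : 0 < τ) (hτ : τ ≤ 1 / 32) (hσ0 : 0 < σ)
    (hσ : σ ^ 2 ≤ τ / 2) :
    dihedral (nP σ 1) (nP σ 5) ≤ dihedral (nQ τ σ 1) (nQ τ σ 5) := by
  show dihedral ![1 / 2, 0, 1, 0] ![σ, 0, 0, -1] ≤
    dihedral ![(1 - τ) / 8, 1 / 8, 1, 0] ![σ, 0, 0, -1]
  apply dihedral_le_of (y := ![1, 1 - τ, 0, -σ]) <;> (try rw [lor_vec]) <;> (try rw [lor_vec]) <;>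
    first | (norm_num; done) | (ring; done) | nlinarith

lemma dih_23 {τ σ : ℝ} (hτ0 : 0 < τ) (hτ : τ ≤ 1 / 32) (hσ0 : 0 < σ)
    (hσ : σ ^ 2 ≤ τ / 2) :
    dihedral (nP σ 2) (nP σ 3) ≤ dihedral (nQ τ σ 2) (nQ τ σ 3) := by
  show dihedral ![1 / 2, 1, 0, 0] ![1 / 2, 0, -1, 0] ≤
    dihedral ![1 / 2, -1, 1 / 16, 0] ![(1 - τ) / 8, 1 / 8, -1, 0]
  apply dihedral_le_of (y := ![127, -65 + τ, -24 + 16 * τ, 0]) <;> (try rw [lor_vec]) <;> (try rw [lor_vec]) <;>
    first | (norm_num; done) | (ring; done) | nlinarith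

lemma dih_24 {τ σ : ℝ} (hτ0 : 0 < τ) (hτ : τ ≤ 1 / 32) (hσ0 : 0 < σ)
    (hσ : σ ^ 2 ≤ τ / 2) :
    dihedral (nP σ 2) (nP σ 4) ≤ dihedral (nQ τ σ 2) (nQ τ σ 4) := by
  show dihedral ![1 / 2, 1, 0, 0] ![σ, 0, 0, 1] ≤
    dihedral ![1 / 2, -1, 1 / 16, 0] ![σ, 0, 0, 1]
  apply dihedral_le_of (y := ![1, -1 / 2, 0, σ]) <;> (try rw [lor_vec]) <;> (try rw [lor_vec]) <;>
    first | (norm_num; done) | (ring; done) | nlinarith

lemma dih_25 {τ σ : ℝ} (hτ0 : 0 < τ) (hτ : τ ≤ 1 / 32) (hσ0 : 0 < σ)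
    (hσ : σ ^ 2 ≤ τ / 2) :
    dihedral (nP σ 2) (nP σ 5) ≤ dihedral (nQ τ σ 2) (nQ τ σ 5) := by
  show dihedral ![1 / 2, 1, 0, 0] ![σ, 0, 0, -1] ≤
    dihedral ![1 / 2, -1, 1 / 16, 0] ![σ, 0, 0, -1]
  apply dihedral_le_of (y := ![1, -1 / 2, 0, -σ]) <;> (try rw [lor_vec]) <;> (try rw [lor_vec]) <;>
    first | (norm_num; done) | (ring; done) | nlinarith

lemma dih_34 {τ σ : ℝ} (hτ0 : 0 < τ) (hτ : τ ≤ 1 / 32) (hσ0 : 0 < σ)
    (hσ : σ ^ 2 ≤ τ / 2) :
    dihedral (nP σ 3) (nP σ 4) ≤ dihedral (nQ τ σ 3) (nQ τ σ 4) := by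
  show dihedral ![1 / 2, 0, -1, 0] ![σ, 0, 0, 1] ≤
    dihedral ![(1 - τ) / 8, 1 / 8, -1, 0] ![σ, 0, 0, 1]
  apply dihedral_le_of (y := ![1, 1 - τ, 0, σ]) <;> (try rw [lor_vec]) <;> (try rw [lor_vec]) <;>
    first | (norm_num; done) | (ring; done) | nlinarith

lemma dih_35 {τ σ : ℝ} (hτ0 : 0 < τ) (hτ : τ ≤ 1 / 32) (hσ0 : 0 < σ)
    (hσ : σ ^ 2 ≤ τ / 2) :
    dihedral (nP σ 3) (nP σ 5) ≤ dihedral (nQ τ σ 3) (nQ τ σ 5) := by
  show dihedral ![1 / 2, 0, -1, 0] ![σ, 0, 0, -1] ≤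
    dihedral ![(1 - τ) / 8, 1 / 8, -1, 0] ![σ, 0, 0, -1]
  apply dihedral_le_of (y := ![1, 1 - τ, 0, -σ]) <;> (try rw [lor_vec]) <;> (try rw [lor_vec]) <;>
    first | (norm_num; done) | (ring; done) | nlinarith

lemma dihedral_P_le_Q {τ σ : ℝ} (hτ0 : 0 < τ) (hτ : τ ≤ 1 / 32) (hσ0 : 0 < σ)
    (hσ : σ ^ 2 ≤ τ / 2) :
    ∀ i j : Fin 6, i < j → dihedral (nP σ i) (nP σ j) ≤ dihedral (nQ τ σ i) (nQ τ σ j) := by
  apply forall6
  · apply forall6
    · intro h; exact absurd h (by decide)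
    · intro _; exact dih_01 hτ0 hτ hσ0 hσ
    · intro _; exact dih_02 hτ0 hτ hσ0 hσ
    · intro _; exact dih_03 hτ0 hτ hσ0 hσ
    · intro _; exact dih_04 hτ0 hτ hσ0 hσ
    · intro _; exact dih_05 hτ0 hτ hσ0 hσ
  · apply forall6
    · intro h; exact absurd h (by decide)
    · intro h; exact absurd h (by decide)
    · intro _; exact dih_12 hτ0 hτ hσ0 hσ
    · intro _; exact dih_13 hτ0 hτ hσ0 hσ
    · intro _; exact dih_14 hτ0 hτ hσ0 hσ
    · intro _; exact dih_15 hτ0 hτ hσ0 hσ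
  · apply forall6
    · intro h; exact absurd h (by decide)
    · intro h; exact absurd h (by decide)
    · intro h; exact absurd h (by decide)
    · intro _; exact dih_23 hτ0 hτ hσ0 hσ
    · intro _; exact dih_24 hτ0 hτ hσ0 hσ
    · intro _; exact dih_25 hτ0 hτ hσ0 hσ
  · apply forall6
    · intro h; exact absurd h (by decide)
    · intro h; exact absurd h (by decide)
    · intro h; exact absurd h (by decide)
    · intro h; exact absurd h (by decide)
    · intro _; exact dih_34 hτ0 hτ hσ0 hσ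
    · intro _; exact dih_35 hτ0 hτ hσ0 hσ
  · apply forall6
    · intro h; exact absurd h (by decide)
    · intro h; exact absurd h (by decide)
    · intro h; exact absurd h (by decide)
    · intro h; exact absurd h (by decide)
    · intro h; exact absurd h (by decide)
    · intro _; exact le_refl _
  · apply forall6
    · intro h; exact absurd h (by decide)
    · intro h; exact absurd h (by decide)
    · intro h; exact absurd h (by decide)
    · intro h; exact absurd h (by decide)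
    · intro h; exact absurd h (by decide)
    · intro h; exact absurd h (by decide)

/-! ### Volumes -/

/-- Upper bound for the volume of `P`. -/
lemma hvol_P_le {σ : ℝ} (hσ0 : 0 < σ) (hσ : σ ≤ 1 / 8) :
    hvol (poly (nP σ)) ≤ ENNReal.ofReal (128 * σ) := by
  have hsub : {X : Mink | ∃ r ∈ Set.Ioo (0 : ℝ) 1, ∃ x ∈ poly (nP σ), X = r • x} ⊆
      Set.Icc (![0, -1, -1, -(2 * σ)] : Mink) ![2, 1, 1, 2 * σ] := by
    rintro X ⟨r, ⟨hr0, hr1⟩, x, hx, rfl⟩
    have ht := time_P_le hσ0 hσ hx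
    have hx0 := one_le_of_mem hx.1
    have h0 := (hx.2 0).2
    have h1 := (hx.2 1).2
    have h2 := (hx.2 2).2
    have h3 := (hx.2 3).2
    have h4 := (hx.2 4).2
    have h5 := (hx.2 5).2
    rw [lor_P0] at h0
    rw [lor_P1] at h1
    rw [lor_P2] at h2
    rw [lor_P3] at h3
    rw [lor_P4] at h4
    rw [lor_P5] at h5
    have a4 : σ * x 0 ≤ 2 * σ := by nlinarith
    have key : ∀ a b : ℝ, -b ≤ a → a ≤ b → -b ≤ r * a ∧ r * a ≤ b := by
      intro a b h h'
      constructor <;> nlinarith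
    have k1 := key (x 1) 1 (by linarith) (by linarith)
    have k2 := key (x 2) 1 (by linarith) (by linarith)
    have k3 := key (x 3) (2 * σ) (by linarith) (by linarith)
    constructor
    · intro i
      fin_cases i
      · show 0 ≤ r * x 0
        positivity
      · exact k1.1
      · exact k2.1
      · exact k3.1
    · intro i
      fin_cases i
      · show r * x 0 ≤ 2
        nlinarith
      · exact k1.2
      · exact k2.2
      · exact k3.2
  have hvol' : volume (Set.Icc (![0, -1, -1, -(2 * σ)] : Mink) ![2, 1, 1, 2 * σ]) =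
      ENNReal.ofReal (32 * σ) := by
    rw [Real.volume_Icc_pi, Fin.prod_univ_four]
    show ENNReal.ofReal (2 - 0) * ENNReal.ofReal (1 - -1) * ENNReal.ofReal (1 - -1) *
      ENNReal.ofReal (2 * σ - -(2 * σ)) = ENNReal.ofReal (32 * σ)
    rw [← ENNReal.ofReal_mul (by norm_num), ← ENNReal.ofReal_mul (by norm_num),
      ← ENNReal.ofReal_mul (by norm_num)]
    congr 1
    ring
  calc hvol (poly (nP σ)) ≤ 4 * ENNReal.ofReal (32 * σ) := by
        unfold hvol
        rw [← hvol']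
        gcongr
    _ = ENNReal.ofReal (128 * σ) := by
        rw [show (4 : ENNReal) = ENNReal.ofReal 4 by simp, ← ENNReal.ofReal_mul (by norm_num)]
        congr 1
        ring

/-- The shear `(X₀, X₁, X₂, X₃) ↦ (X₀, X₀ - X₁, X₂, X₃)`. -/
def shear : Matrix (Fin 4) (Fin 4) ℝ :=
  !![1, 0, 0, 0; 1, -1, 0, 0; 0, 0, 1, 0; 0, 0, 0, 1]

lemma det_shear : shear.det = -1 := by
  simp [shear, Matrix.det_succ_row_zero, Fin.sum_univ_succ, Fin.succAbove]

lemma shear_apply (X : Mink) : Matrix.toLin' shear X = ![X 0, X 0 - X 1, X 2, X 3] := by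
  ext i
  fin_cases i <;> simp [shear, Matrix.toLin'_apply, Matrix.mulVec, dotProduct, Fin.sum_univ_succ]
  ring

/-- The box in the sheared coordinates. -/
def box (a s : ℝ) : Set Mink :=
  Set.pi Set.univ fun i => Set.Ioo ((![a, a⁻¹ / 8, -(a⁻¹ / 128), -(s * a)] : Mink) i)
    ((![2 * a, a⁻¹ / 4, a⁻¹ / 128, s * a] : Mink) i)

lemma volume_box {a s : ℝ} (ha : 0 < a) (hs : 0 < s) :
    volume (box a s) = ENNReal.ofReal (s / 256) := by
  rw [box, Real.volume_pi_Ioo, Fin.prod_univ_four]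
  show ENNReal.ofReal (2 * a - a) * ENNReal.ofReal (a⁻¹ / 4 - a⁻¹ / 8) *
    ENNReal.ofReal (a⁻¹ / 128 - -(a⁻¹ / 128)) * ENNReal.ofReal (s * a - -(s * a)) = _
  rw [← ENNReal.ofReal_mul (by linarith), ← ENNReal.ofReal_mul, ← ENNReal.ofReal_mul]
  · congr 1
    field_simp
    ring
  · have : 0 < a⁻¹ := by positivity
    apply mul_nonneg (mul_nonneg _ _) _ <;> linarith
  · have : 0 < a⁻¹ := by positivity
    apply mul_nonneg _ _ <;> linarith

lemma mem_box {a s : ℝ} {X : Mink} : X ∈ (Matrix.toLin' shear) ⁻¹' box a s ↔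
    (a < X 0 ∧ X 0 < 2 * a) ∧ (a⁻¹ / 8 < X 0 - X 1 ∧ X 0 - X 1 < a⁻¹ / 4) ∧
    (-(a⁻¹ / 128) < X 2 ∧ X 2 < a⁻¹ / 128) ∧ (-(s * a) < X 3 ∧ X 3 < s * a) := by
  rw [mem_preimage, shear_apply, box, Set.mem_univ_pi]
  constructor
  · intro h
    exact ⟨h 0, h 1, h 2, h 3⟩
  · rintro ⟨h0, h1, h2, h3⟩ i
    fin_cases i
    · exact h0
    · exact h1
    · exact h2
    · exact h3

lemma volume_preimage_box {a s : ℝ} (ha : 0 < a) (hs : 0 < s) :
    volume ((Matrix.toLin' shear) ⁻¹' box a s) = ENNReal.ofReal (s / 256) := by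
  have hdet : LinearMap.det (Matrix.toLin' shear) ≠ 0 := by
    rw [LinearMap.det_toLin', det_shear]; norm_num
  rw [Measure.addHaar_preimage_linearMap _ hdet, LinearMap.det_toLin', det_shear, volume_box ha hs]
  norm_num

lemma measurableSet_preimage_box (a s : ℝ) :
    MeasurableSet ((Matrix.toLin' shear) ⁻¹' box a s) := by
  apply (LinearMap.continuous_of_finiteDimensional _).measurable
  exact MeasurableSet.univ_pi fun i => measurableSet_Ioo

/-- The pieces lie in the cone over `Q`. -/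
lemma piece_subset {t a : ℝ} (ht0 : 0 < t) (ht1 : t ≤ 1) (ha : 1 ≤ a) (hat : a * t ≤ 1) :
    (Matrix.toLin' shear) ⁻¹' box a (t / 8) ⊆
      {X : Mink | ∃ r ∈ Set.Ioo (0 : ℝ) 1, ∃ x ∈ poly (nQ (t ^ 2 / 32) (t / 8)), X = r • x} := by
  intro X hX
  obtain ⟨⟨h1, h2⟩, ⟨h3, h4⟩, ⟨h5, h6⟩, ⟨h7, h8⟩⟩ := mem_box.1 hX
  have ha0 : 0 < a := by linarith
  obtain ⟨b, hb⟩ : ∃ b, b = a⁻¹ := ⟨_, rfl⟩
  rw [← hb] at h3 h4 h5 h6
  have hab : a * b = 1 := by rw [hb]; exact mul_inv_cancel₀ ha0.ne'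
  have hb0 : 0 < b := by rw [hb]; positivity
  have hb1 : b ≤ 1 := by nlinarith
  have htb : t ≤ b := by nlinarith
  have hX0 : 0 < X 0 := by linarith
  -- the Lorentz norm
  have e : lor X X = -((X 0 - X 1) * (2 * X 0 - (X 0 - X 1))) + X 2 ^ 2 + X 3 ^ 2 := by
    simp only [lor]; ring
  have q2 : X 2 ^ 2 ≤ (b / 128) ^ 2 := by apply sq_le_sq' <;> linarith
  have q3 : X 3 ^ 2 ≤ (t / 8 * a) ^ 2 := by apply sq_le_sq' <;> linarith
  have q2' : (b / 128) ^ 2 ≤ 1 / 16384 := by nlinarith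
  have q3' : (t / 8 * a) ^ 2 ≤ 1 / 64 := by
    have : (t / 8 * a) ^ 2 = (a * t) ^ 2 / 64 := by ring
    have h9 : (a * t) ^ 2 ≤ 1 := pow_le_one₀ (by positivity) hat
    linarith
  have up : (X 0 - X 1) * (2 * X 0 - (X 0 - X 1)) < 1 := by
    have g1 : 0 < X 0 - X 1 := by linarith
    have g2 : (X 0 - X 1) * (2 * X 0 - (X 0 - X 1)) ≤ (X 0 - X 1) * (2 * X 0) := by
      apply mul_le_mul_of_nonneg_left _ g1.le; linarith
    have g3 : (X 0 - X 1) * (2 * X 0) < b / 4 * (4 * a) := by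
      apply mul_lt_mul'' h4 (by linarith) g1.le (by linarith)
    nlinarith
  have lo : 1 / 8 < (X 0 - X 1) * (2 * X 0 - (X 0 - X 1)) := by
    have g1 : b / 8 * a < (X 0 - X 1) * (2 * X 0 - (X 0 - X 1)) := by
      apply mul_lt_mul'' h3 (by linarith) (by linarith) (by linarith)
    nlinarith
  apply mem_cone hX0
  · rw [e]; nlinarith
  · rw [e]; nlinarith [sq_nonneg (X 2), sq_nonneg (X 3)]
  · have key : t ^ 2 / 32 * X 0 ≤ b / 16 := by
      have g1 : t ^ 2 / 32 * X 0 ≤ t ^ 2 / 32 * (2 * a) := by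
        apply mul_le_mul_of_nonneg_left h2.le; positivity
      have g2 : t ^ 2 / 32 * (2 * a) = t / 16 * (a * t) := by ring
      have g3 : t / 16 * (a * t) ≤ t / 16 * 1 := by
        apply mul_le_mul_of_nonneg_left hat; positivity
      linarith
    apply forall6
    · rw [lor_Q0]; linarith
    · rw [lor_Q1]; linarith
    · rw [lor_Q2]; linarith
    · rw [lor_Q3]; linarith
    · rw [lor_Q4]
      have : t / 8 * a ≤ t / 8 * X 0 := by
        apply mul_le_mul_of_nonneg_left h1.le; positivity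
      linarith
    · rw [lor_Q5]
      have : t / 8 * a ≤ t / 8 * X 0 := by
        apply mul_le_mul_of_nonneg_left h1.le; positivity
      linarith

/-- Lower bound for the volume of `Q`. -/
lemma le_hvol_Q (K : ℕ) {t : ℝ} (ht : t = (1 / 2) ^ K) :
    ENNReal.ofReal ((K + 1) * (t / 512)) ≤ hvol (poly (nQ (t ^ 2 / 32) (t / 8))) := by
  have ht0 : 0 < t := by rw [ht]; positivity
  have ht1 : t ≤ 1 := by rw [ht]; exact pow_le_one₀ (by norm_num) (by norm_num)
  set S : ℕ → Set Mink := fun k => (Matrix.toLin' shear) ⁻¹' box (2 ^ k) (t / 8) with hS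
  have hsub : (⋃ k ∈ Finset.range (K + 1), S k) ⊆
      {X : Mink | ∃ r ∈ Set.Ioo (0 : ℝ) 1, ∃ x ∈ poly (nQ (t ^ 2 / 32) (t / 8)), X = r • x} := by
    apply iUnion₂_subset
    intro k hk
    have hk' : k ≤ K := by simpa [Nat.lt_succ_iff] using hk
    apply piece_subset ht0 ht1 (one_le_pow₀ (by norm_num))
    rw [ht]
    calc (2 : ℝ) ^ k * (1 / 2) ^ K ≤ 2 ^ K * (1 / 2) ^ K := by
          gcongr; norm_num
      _ = 1 := by rw [← mul_pow]; norm_num
  have hdisj : (↑(Finset.range (K + 1)) : Set ℕ).PairwiseDisjoint S := by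
    intro i _ j _ hij
    rw [Function.onFun, Set.disjoint_left]
    intro X hi hj
    obtain ⟨⟨a1, a2⟩, -⟩ := mem_box.1 hi
    obtain ⟨⟨b1, b2⟩, -⟩ := mem_box.1 hj
    rcases lt_or_gt_of_ne hij with h | h
    · have : (2 : ℝ) ^ (i + 1) ≤ 2 ^ j := pow_le_pow_right₀ (by norm_num) h
      rw [pow_succ] at this
      linarith
    · have : (2 : ℝ) ^ (j + 1) ≤ 2 ^ i := pow_le_pow_right₀ (by norm_num) h
      rw [pow_succ] at this
      linarith
  have hvol' : volume (⋃ k ∈ Finset.range (K + 1), S k) =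
      (K + 1 : ℕ) * ENNReal.ofReal (t / 8 / 256) := by
    rw [measure_biUnion_finset hdisj fun k _ => measurableSet_preimage_box _ _]
    rw [Finset.sum_congr rfl fun k _ => volume_preimage_box (a := 2 ^ k) (s := t / 8)
      (by positivity) (by positivity)]
    simp
  calc ENNReal.ofReal ((K + 1) * (t / 512))
      = 4 * ((K + 1 : ℕ) * ENNReal.ofReal (t / 8 / 256)) := by
        rw [show (4 : ENNReal) = ENNReal.ofReal 4 by simp,
          show ((K + 1 : ℕ) : ENNReal) = ENNReal.ofReal ((K : ℝ) + 1) by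
            rw [← ENNReal.ofReal_natCast]; push_cast; rfl,
          ← ENNReal.ofReal_mul (by positivity), ← ENNReal.ofReal_mul (by norm_num)]
        congr 1
        ring
    _ = 4 * volume (⋃ k ∈ Finset.range (K + 1), S k) := by rw [hvol']
    _ ≤ hvol (poly (nQ (t ^ 2 / 32) (t / 8))) := by
        unfold hvol
        gcongr

end Pool.Agent.TH44.HypPoly
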